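import Mathlib
import Pool.Agent.H.MP_2e4b78_lc.A
import Pool.Agent.H.MP_522602_lc.A

set_option autoImplicit false

namespace Pool.Agent.H.MP_0d317a_lc

open Set Filter Function Cardinal Pool.Agent.H.MP_77d395_lc Pool.Agent.H.MP_6e75db_lc
open Pool.Agent.H.MP_522602_lc (p fb)

structure Dt where
  G : Set ℕ
  T : Set ℕ
  s : ℕ → Set (I × Bool)

def Con (A : Set (I × Bool)) : Prop := ∀ b, (b, true) ∈ A → (b, false) ∉ A

def FF (U : Set I) (F : Set (I × Bool)) : Prop := F.Finite ∧ ∀ u ∈ F, u.1 ∈ U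

section
variable (g : I → Dt)

def Sg (j : ℕ) (F : Set (I × Bool)) : Set (I × Bool) := ⋃ u ∈ F, cond u.2 ((g u.1).s j) {u}

def Cb (j : ℕ) (F : Set (I × Bool)) : Set ℕ := {n | p n = j ∧ ∀ u ∈ F, n ∈ (g u.1).G ↔ u.2 = true}

def Nn (a : I) (A : Set (I × Bool)) (c : I) : Set ℕ :=
  {m ∈ (g c).T | ∀ b ∈ Ioo c a, (b, true) ∈ A → m ∉ (g b).T}

def Xx (U : Set I) (A : Set (I × Bool)) : Set ℕ :=
  {m | {b ∈ U | (b, true) ∈ A ∧ m ∈ (g b).T}.Finite}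

def Tc (j : ℕ) (c : I) (A : Set (I × Bool)) : Prop :=
  ∃ F, FF (Iic c) F ∧ A ∩ {x | x.1 ≤ c} = Sg g j F

def Cm (a : I) (x : Dt) : Prop :=
  (∀ j, (a, true) ∈ x.s j ∧ ∀ y ∈ x.s j, y.1 ≤ a) ∧ (∀ j, ∀ c < a, Tc g j c (x.s j)) ∧
    ∀ F, FF (Iio a) F → (∀ j, Con (x.s j ∪ Sg g j F) → (Cb g j F ∩ x.G).Infinite) ∧
      ∀ c < a, ∀ n, (Nn g a (⋃ j < n, x.s j ∪ Sg g j F) c \ x.T).Infinite

def Pr (a : I) (x : Dt) : Prop := Cm g a x ∧
  ∀ u ⊆ Iio a, u.Finite → ∃ᶠ j in atTop, Con (x.s j ∪ Sg g j (u ×ˢ {true}))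

def P (a : I) (x : Dt) : Prop := Cm g a x ∧ (∃ᶠ j in atTop, Con (x.s j)) ∧ x.T.Infinite ∧
  (∀ j, (x.T \ Xx g (Iio a) (x.s j)).Finite) ∧ (∀ b < a, (x.T \ (g b).T).Finite ∧ ∀ᶠ j in atTop,
    (Con (x.s j) → (g b).s j ⊆ x.s j) ∧ (fb x.G j \ (g b).G).Finite) ∧
  ∀ F, FF (Iio a) F → ∀ j, Con (Sg g j F) → (Cb g j F \ x.G).Infinite

end

variable {g h : I → Dt} {a c δ : I} {x : Dt} {j : ℕ} {F : Set (I × Bool)} {A B : Set (I × Bool)}

theorem e1 (e : ∀ b < a, g b = h b) (f : FF (Iio a) F) : Sg g j F = Sg h j F :=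
  iUnion₂_congr fun u r => by rw [e _ (f.2 u r)]

theorem e2 (e : ∀ b < a, g b = h b) (f : FF (Iio a) F) : Cb g j F = Cb h j F :=
  ext fun _ => and_congr_right' (forall₂_congr fun u r => by rw [e _ (f.2 u r)])

theorem cm (e : ∀ b < a, g b = h b) (s : Cm g a x) : Cm h a x :=
  ⟨s.1, fun j c l => (s.2.1 j c l).imp fun _ r => ⟨r.1, r.2.trans (e1 e ⟨r.1.1, fun u t =>
    (r.1.2 u t).trans_lt l⟩)⟩, fun F f => ⟨fun j => e1 e f ▸ e2 e f ▸ (s.2.2 F f).1 j, fun c l n =>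
      ((s.2.2 F f).2 c l n).mono fun m r => ⟨⟨e c l ▸ r.1.1, fun b t w => e b t.2 ▸ r.1.2 b t
        (by simpa only [e1 e f] using w)⟩, r.2⟩⟩⟩

theorem cr (e : ∀ b < a, g b = h b) (s : Pr g a x) : Pr h a x :=
  ⟨cm e s.1, fun u l f => (s.2 u l f).mono fun _ =>
    e1 e ⟨f.prod (finite_singleton true), fun _ r => l r.1⟩ ▸ id⟩

theorem cp (e : ∀ b < a, g b = h b) (s : P g a x) : P h a x :=
  ⟨cm e s.1, s.2.1, s.2.2.1, fun j => (s.2.2.2.1 j).subset fun m r => ⟨r.1, fun t => r.2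
    (t.subset fun b w => ⟨w.1, w.2.1, e b w.1 ▸ w.2.2⟩)⟩, fun b l => e b l ▸ s.2.2.2.2.1 b l,
      fun F f j => e1 e f ▸ e2 e f ▸ s.2.2.2.2.2 F f j⟩

theorem mc (l : A ⊆ B) (k : Con B) : Con A := fun b r t => k b (l r) (l t)

theorem su : Sg g j (A ∪ B) = Sg g j A ∪ Sg g j B := biUnion_union _ _ _

theorem sm (l : A ⊆ B) : Sg g j A ⊆ Sg g j B := biUnion_subset_biUnion_left l

theorem st (l : (a, true) ∈ A) : (g a).s j ⊆ Sg g j A := fun _ r => mem_biUnion l r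

theorem sf (l : (a, false) ∈ A) : (a, false) ∈ Sg g j A := mem_biUnion l rfl

theorem ss {y : I × Bool} (l : y ∈ Sg g j A) :
    (∃ b, (b, true) ∈ A ∧ y ∈ (g b).s j) ∨ y ∈ A ∧ y.2 = false := by
  obtain ⟨⟨b, _ | _⟩, r, t⟩ := mem_iUnion₂.1 l
  · obtain rfl : y = _ := t
    exact .inr ⟨r, rfl⟩
  exact .inl ⟨b, r, t⟩

theorem fu {U : Set I} (f : FF U A) (k : FF U B) : FF U (A ∪ B) :=
  ⟨f.1.union k.1, fun u r => r.elim (f.2 u) (k.2 u)⟩

theorem fl (f : F.Finite) : FF (Iio a) {u ∈ F | u.1 < a} := ⟨f.sep _, fun _ r => r.2⟩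

theorem ub {u : Set I} (f : u.Finite) (l : u ⊆ Iio δ) (k : c < δ) :
    ∃ a < δ, c ≤ a ∧ ∀ b ∈ u, b ≤ a :=
  let ⟨a, r, t⟩ := exists_max_image _ id (f.insert c) (insert_nonempty _ _)
  ⟨a, r.elim (· ▸ k) (l ·), t c (.inl rfl), fun b w => t b (.inr w)⟩

theorem uf (f : FF (Iio δ) F) (k : c < δ) : ∃ a < δ, c ≤ a ∧ ∀ u ∈ F, u.1 ≤ a :=
  let ⟨a, r, t, w⟩ := ub (f.1.image Prod.fst) (image_subset_iff.2 f.2) k
  ⟨a, r, t, fun u y => w _ ⟨u, y, rfl⟩⟩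

theorem tu (s : Tc g j c A) (t : Tc g j c B) : Tc g j c (A ∪ B) :=
  let ⟨_, f, e⟩ := s; let ⟨_, k, r⟩ := t; ⟨_, fu f k, by rw [su, ← e, ← r, union_inter_distrib_right]⟩

theorem t0 (l : ∀ y ∈ A, c < y.1) : Tc g j c A := ⟨∅, ⟨finite_empty, by simp⟩,
  (eq_empty_of_forall_notMem fun y r => (l y r.1).not_ge r.2).trans (biUnion_empty _).symm⟩

theorem tb {ι : Type} {K : Set ι} {S : ι → Set (I × Bool)} (f : K.Finite)
    (s : ∀ i ∈ K, Tc g j c (S i)) : Tc g j c (⋃ i ∈ K, S i) := by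
  induction K, f using Finite.induction_on with
  | empty => exact t0 (by simp)
  | insert _ _ ih => exact biUnion_insert _ _ _ ▸ tu (s _ (.inl rfl)) (ih fun i r => s i (.inr r))

theorem ic : {n | p n = j}.Infinite := infinite_of_injective_forall_mem
  (f := Nat.pair j) (fun _ _ e => (Nat.pair_eq_pair.1 e).2) (by simp [p])

theorem sp {𝒞 : Set (Set ℕ)} (k : 𝒞.Countable) :
    ∃ R, ∀ C ∈ 𝒞, C.Infinite → (C ∩ R).Infinite ∧ (C \ R).Infinite := by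
  obtain ⟨f, e⟩ := ((k.mono (sep_subset _ Set.Infinite)).insert Set.univ).exists_eq_range
    (insert_nonempty _ _)
  obtain ⟨φ, φ1, φ2⟩ := extraction_forall_of_frequently fun n => Nat.frequently_atTop_iff_infinite.2
    (show (f n.unpair.1).Infinite from (e.ge ⟨_, rfl⟩).elim (· ▸ infinite_univ) (·.2))
  refine ⟨φ '' {n | Even n.unpair.2}, fun C r i => ?_⟩
  obtain ⟨l, rfl⟩ := e.le (.inr ⟨r, i⟩)
  have z : ∀ q : ℕ → ℕ, Injective q → Injective fun n => φ (l.pair (q n)) :=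
    fun q t _ _ e => t (Nat.pair_eq_pair.1 (φ1.injective e)).2
  have w : ∀ n, φ (l.pair n) ∈ f l := fun n => by
    have := φ2 (l.pair n); rwa [Nat.unpair_pair] at this
  exact ⟨infinite_of_injective_forall_mem (z (2 * ·) fun _ _ e => by simpa using e) fun n =>
    ⟨w _, _, by simp, rfl⟩, infinite_of_injective_forall_mem (z (2 * · + 1) fun _ _ e => by simpa using e)
      fun n => ⟨w _, by simp [φ1.injective.mem_set_image]⟩⟩

theorem pi {S : ℕ → Set ℕ} (k : ∀ n, (⋂ i ≤ n, S i).Infinite) :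
    ∃ R : Set ℕ, R.Infinite ∧ ∀ i, (R \ S i).Finite := by
  obtain ⟨φ, φ1, φ2⟩ := extraction_forall_of_frequently fun n =>
    Nat.frequently_atTop_iff_infinite.2 (k n)
  refine ⟨range φ, infinite_range_of_injective φ1.injective, fun i =>
    ((finite_lt_nat i).image φ).subset ?_⟩
  rintro _ ⟨⟨n, rfl⟩, r⟩
  exact ⟨n, not_le.1 fun l => r (mem_iInter₂.1 (φ2 n) i l), rfl⟩

theorem cF (δ : I) : {F | FF (Iio δ) F}.Countable :=
  (countable_ofPred_finite_subset (((cI δ).mono Iio_subset_Iic_self).prod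
    (countable_univ (α := Bool)))).mono fun _ r => And.intro r.1 fun u t => ⟨r.2 u t, trivial⟩

theorem cu : Cb g j (A ∪ B) = Cb g j A ∩ Cb g j B := ext fun _ =>
  ⟨fun r => ⟨⟨r.1, fun u t => r.2 u (.inl t)⟩, r.1, fun u t => r.2 u (.inr t)⟩,
    fun r => ⟨r.1.1, fun u t => t.elim (r.1.2 u) (r.2.2 u)⟩⟩

section
variable (s : ∀ b < δ, P g b (g b))
include s

theorem g3 (f : FF (Iio δ) F) : ∀ y ∈ Sg g j F, ∃ u ∈ F, y.1 ≤ u.1 := fun y r =>
  (ss r).elim (fun ⟨b, t, w⟩ => ⟨_, t, ((s b (f.2 _ t)).1.1 j).2 y w⟩) fun t => ⟨y, t.1, le_rfl⟩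

theorem g4 (f : FF (Iio δ) F) (k : Con (Sg g j F)) : (Cb g j F).Infinite := by
  rcases F.eq_empty_or_nonempty with rfl | ⟨u, r⟩
  · exact ic.mono fun n t => ⟨t, by simp⟩
  obtain ⟨a, l, -, t⟩ := uf f (f.2 u r)
  have z : ∀ {n}, n ∈ Cb g j {u ∈ F | u.1 < a} → (∀ b, (a, b) ∈ F → (n ∈ (g a).G ↔ b = true)) →
      n ∈ Cb g j F := fun y w => ⟨y.1, fun u r => (t u r).eq_or_lt.elim
        (fun e => by subst e; exact w _ r) fun e => y.2 u ⟨r, e⟩⟩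
  by_cases w : (a, true) ∈ F
  · exact (((s a l).1.2.2 _ (fl f.1)).1 j (mc (union_subset (st w) (sm fun _ r => r.1)) k)).mono
      fun n y => z y.1 fun b v => by
        cases b
        · exact (k a (st w ((s a l).1.1 j).1) (sf v)).elim
        exact iff_of_true y.2 rfl
  exact ((s a l).2.2.2.2.2 _ (fl f.1) j (mc (sm fun _ r => r.1) k)).mono fun n y => z y.1
    fun b v => iff_of_false y.2 fun e => w (e ▸ v)

theorem t1 (l : a < δ) : Tc g j c ((g a).s j) := (lt_or_ge c a).elim ((s a l).1.2.1 j c) fun k =>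
  ⟨{(a, true)}, ⟨finite_singleton _, fun _ r => r ▸ k⟩, (inter_eq_left.2 fun y r =>
    (((s a l).1.1 j).2 y r).trans k).trans (by simp [Sg])⟩

theorem g5 (f : FF (Iio δ) F) : Tc g j c (Sg g j F) := tb f.1 fun ⟨b, v⟩ r => by
  cases v
  · exact (lt_or_ge c b).elim (fun k => t0 fun _ e => e ▸ k) fun k => ⟨{(b, false)},
      ⟨finite_singleton _, fun _ r => r ▸ k⟩, (inter_eq_left.2 fun y r => by
        obtain rfl : y = _ := r; exact k).trans (by simp [Sg])⟩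
  exact t1 s (f.2 _ r)

theorem td (l : a ≤ c) (k : c < δ) : ((g c).T \ (g a).T).Finite :=
  l.eq_or_lt.elim (fun e => by simp [e]) fun l => ((s c k).2.2.2.2.1 a l).1

theorem g6 (k : c < δ) (t : Tc g j c A) : ((g c).T \ Xx g (Iic c) A).Finite := by
  obtain ⟨F, f, e⟩ := t
  refine (f.1.biUnion fun u r => (td s (f.2 u r) k).union ((s _ ((f.2 u r).trans_lt k)).2.2.2.1
    j)).subset fun m r => by_contra fun n => r.2 ((f.1.biUnion fun u w => Finite.insert u.1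
      (show m ∈ Xx g (Iio u.1) ((g u.1).s j) from by_contra fun y => n (mem_biUnion w
        ((em _).symm.imp (⟨r.1, ·⟩) (⟨·, y⟩))))).subset fun b w => ?_)
  rcases ss (e.le ⟨w.2.1, w.1⟩) with ⟨d, v, y⟩ | v
  · exact mem_biUnion v ((((s d ((f.2 _ v).trans_lt k)).1.1 j).2 _ y).eq_or_lt.imp_right
      fun l => ⟨l, y, w.2.2⟩)
  exact absurd v.2 (by simp)

theorem g7 (f : FF (Iio δ) F) (k : c < δ) (n : ℕ) : (Nn g δ (⋃ j < n, Sg g j F) c).Infinite := by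
  obtain ⟨a, l, r, t⟩ := uf f k
  have z : ∀ {b}, (b, true) ∈ ⋃ j < n, Sg g j F → b ≤ a := fun w =>
    let ⟨_, _, v⟩ := mem_iUnion₂.1 w; let ⟨u, y, v⟩ := g3 s f _ v; v.trans (t u y)
  rcases r.eq_or_lt with rfl | r
  · exact (s c k).2.2.1.mono fun m y => ⟨y, fun b v w => (v.1.not_ge (z w)).elim⟩
  refine (((s a l).1.2.2 _ (fl f.1)).2 c r n).mono fun m y => ⟨y.1.1, fun b v w =>
    (z w).eq_or_lt.elim (· ▸ y.2) fun e => y.1.2 b ⟨v.1, e⟩ ?_⟩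
  obtain ⟨j, q, w⟩ := mem_iUnion₂.1 w
  refine mem_biUnion q ?_
  rcases ss w with ⟨d, v, y⟩ | v
  · exact (t _ v).eq_or_lt.imp (fun e : d = a => e ▸ y) fun e => st (A := {u ∈ F | u.1 < a}) ⟨v, e⟩ y
  exact absurd v.2 (by simp)

theorem tp : Pr g δ ⟨Set.univ, ∅, fun _ => {(δ, true)}⟩ := by
  have z : ∀ {j F}, FF (Iio δ) F → Con (Sg g j F) → Con ({(δ, true)} ∪ Sg g j F) :=
    fun f k b r t => t.elim (by simp) fun t => r.elim (fun e => let ⟨u, v, w⟩ := g3 s f _ t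
      (f.2 u v).not_ge ((Prod.mk.inj e).1 ▸ w)) (k b · t)
  refine ⟨⟨fun j => ⟨rfl, fun y r => r ▸ le_rfl⟩, fun j c l => t0 fun y r => r ▸ l, fun F f =>
    ⟨fun j k => (g4 s f (mc subset_union_right k)).mono fun n r => ⟨r, trivial⟩, fun c l n =>
      (g7 s f l n).mono fun m r => ⟨⟨r.1, fun b t w => let ⟨j, q, v⟩ := mem_iUnion₂.1 w
        r.2 b t (mem_biUnion q (v.resolve_left fun e => t.2.ne (Prod.mk.inj e).1))⟩, id⟩⟩⟩,
          fun u l f => ?_⟩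
  rcases u.eq_empty_or_nonempty with rfl | ⟨c, r⟩
  · exact .of_forall fun j => z ⟨by simp, by simp⟩ (by simp [Sg, Con])
  obtain ⟨a, k, -, t⟩ := ub f l (l r)
  refine ((s a k).2.1.and_eventually ((eventually_all_finite f).2 fun b w => show ∀ᶠ j in atTop,
    Con ((g a).s j) → (g b).s j ⊆ (g a).s j from (t b w).eq_or_lt.elim (fun e => by simp [e])
      fun e => ((s a k).2.2.2.2.1 b e).2.mono fun j y => y.1)).mono fun j y =>
        z ⟨f.prod (finite_singleton _), fun _ r => l r.1⟩ (mc (fun v w => ?_) y.1)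
  rcases ss w with ⟨d, e, w⟩ | w
  · exact y.2 d e.1 y.1 w
  exact absurd (w.2.symm.trans w.1.2) (by simp)

end

end Pool.Agent.H.MP_0d317a_lc
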