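import Mathlib
import Pool.Agent.H.MP_0d317a_lc.A

set_option autoImplicit false

namespace Pool.Agent.H.MP_0d317a_lc

open Set Filter Function Cardinal Pool.Agent.H.MP_77d395_lc Pool.Agent.H.MP_6e75db_lc
open Pool.Agent.H.MP_522602_lc (p fb)

variable {g h : I → Dt} {a c δ : I} {x : Dt} {j : ℕ} {F : Set (I × Bool)} {A B : Set (I × Bool)}

section
variable (s : ∀ b < δ, P g b (g b))
include s

theorem fin {y : Dt} (q : Pr g δ y) (S : Set ℕ) : ∃ x, P g δ x ∧ x.G ⊆ y.G ∧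
    (x.G ⊆ S ∨ x.G ⊆ Sᶜ) ∧ (x.T ⊆ S ∨ x.T ⊆ Sᶜ) ∧
      ∀ j, ∃ F, FF (Iio δ) F ∧ ∀ z ∈ x.s j, z.1 < δ → z ∈ y.s j ∪ Sg g j F := by
  obtain ⟨⟨q1, q2, q3⟩, q4⟩ := q
  obtain ⟨e, he⟩ := (((cI δ).mono Iio_subset_Iic_self).insert δ).exists_eq_range (insert_nonempty _ _)
  obtain ⟨φ, φ1, φ2⟩ := extraction_forall_of_frequently fun n =>
    q4 (e '' Iic n ∩ Iio δ) inter_subset_right (((finite_Iic n).image e).inter_of_left _)
  have : ∀ n, ∃ (F : Set (I × Bool)) (b : Bool), FF (Iio δ) F ∧ (e '' Iic n ∩ Iio δ) ×ˢ {true} ⊆ F ∧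
      Con (y.s (φ n) ∪ Sg g (φ n) F) ∧ ∀ E, FF (Iio δ) E → Con (y.s (φ n) ∪ Sg g (φ n) (F ∪ E)) →
        (Cb g (φ n) (F ∪ E) ∩ y.G ∩ cond b S Sᶜ).Infinite := fun n => by
    have f : FF (Iio δ) ((e '' Iic n ∩ Iio δ) ×ˢ {true}) := ⟨(((finite_Iic n).image e).inter_of_left
      _).prod (finite_singleton _), fun _ r => r.1.2⟩
    by_cases k : ∀ E, FF (Iio δ) E → Con (y.s (φ n) ∪ Sg g (φ n) ((e '' Iic n ∩ Iio δ) ×ˢ {true} ∪ E))
      → (Cb g (φ n) ((e '' Iic n ∩ Iio δ) ×ˢ {true} ∪ E) ∩ y.G ∩ S).Infinite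
    · exact ⟨_, true, f, Subset.rfl, φ2 n, k⟩
    push Not at k
    obtain ⟨E, r, t, w⟩ := k
    exact ⟨_, false, fu f r, subset_union_left, t, fun H v z => ((((q3 _ (fu (fu f r) v)).1 _ z).sdiff
      w).mono fun m u => ⟨u.1, fun i => u.2 ⟨⟨(cu.le u.1.1).1, u.1.2⟩, i⟩⟩)⟩
  choose F b f1 f2 f3 f4 using this
  obtain ⟨β, hβ⟩ := Finite.exists_infinite_fiber b
  let D := φ '' (b ⁻¹' {β})
  let ψ := invFun φ
  have i : ∀ n, ψ (φ n) = n := leftInverse_invFun φ1.injective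
  let σ (j : ℕ) := y.s j ∪ Sg g j (F (ψ j)) ∪ {u | u = (δ, false) ∧ j ∉ D}
  let Y := {n | p n ∈ D ∧ n ∈ Cb g (p n) (F (ψ (p n))) ∩ y.G ∩ cond β S Sᶜ}
  have d : ∀ {j}, Con (σ j) → j ∈ D := fun k => by_contra fun n =>
    k δ (.inl (.inl (q1 _).1)) (.inr ⟨rfl, n⟩)
  have t5 : ∀ j, ∀ c < δ, Tc g j c (σ j) := fun j c l =>
    tu (tu (q2 j c l) (g5 s (f1 _))) (t0 fun u r => r.1 ▸ l)
  have t7 : ∀ E, FF (Iio δ) E → ∀ c < δ, ∀ n, (Nn g δ (⋃ j < n, σ j ∪ Sg g j E) c).Infinite :=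
    fun E f c l n => ((q3 (E ∪ ⋃ j < n, F (ψ j)) (fu f ⟨(finite_lt_nat n).biUnion fun j _ => (f1 _).1,
      fun u r => let ⟨j, _, t⟩ := mem_iUnion₂.1 r; (f1 _).2 u t⟩)).2 c l n).mono fun m r =>
        ⟨r.1.1, fun a t w => let ⟨j, v, w⟩ := mem_iUnion₂.1 w; r.1.2 a t (mem_biUnion v (w.elim
          (fun w => w.elim (.imp_right fun z => sm (fun u t => .inr (mem_biUnion v t)) z)
            fun w => by simp at w) fun w => .inr
              (sm subset_union_left w)))⟩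
  obtain ⟨T, T1, T2⟩ := pi (S := fun i => {m | (e i < δ → m ∈ (g (e i)).T) ∧ m ∈ Xx g (Iio δ) (σ i)})
    fun n => by
      by_cases k : ∃ c, c < δ
      swap
      · exact infinite_univ.mono fun m _ => mem_iInter₂.2 fun i _ => ⟨fun r => (k ⟨_, r⟩).elim,
          finite_empty.subset fun a r => k ⟨_, r.1⟩⟩
      obtain ⟨c, l, -, r⟩ := ub (((finite_Iic n).image e).inter_of_left _) inter_subset_right
        k.choose_spec
      refine ((t7 ∅ ⟨finite_empty, by simp⟩ c l (n + 1)).sdiff ((finite_le_nat n).biUnion fun i t =>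
        (show {m ∈ (g c).T | e i < δ ∧ m ∉ (g (e i)).T}.Finite from ?_).union (g6 s l (t5 i c l)))).mono
          fun m w => mem_iInter₂.2 fun i t => ⟨fun v => by_contra fun z => w.2 (mem_biUnion t
            (.inl ⟨w.1.1, v, z⟩)), (show m ∈ Xx g (Iic c) (σ i) from by_contra fun z => w.2
              (mem_biUnion t (.inr ⟨w.1.1, z⟩))).subset fun a v => ⟨not_lt.1 fun z => w.1.2 a ⟨z, v.1⟩
                (mem_biUnion (Nat.lt_succ_of_le t) (.inl v.2.1)) v.2.2, v.2⟩⟩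
      by_cases v : e i < δ
      · exact (td s (r _ ⟨⟨i, t, rfl⟩, v⟩) l).subset fun m w => ⟨w.1, w.2.2⟩
      simp [v]
  obtain ⟨V, V1, V2, V3⟩ : ∃ V ⊆ T, V.Infinite ∧ (V ⊆ S ∨ V ⊆ Sᶜ) :=
    (infinite_union.1 (T1.mono (inter_union_sdiff T S).ge)).elim (⟨_, inter_subset_left, ·,
      .inl inter_subset_right⟩) (⟨_, sdiff_subset, ·, .inr fun _ r => r.2⟩)
  obtain ⟨R, hR⟩ := sp (((((cF δ).prod (countable_univ (α := ℕ × Bool))).image fun z =>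
    Cb g z.2.1 z.1 ∩ cond z.2.2 Y Set.univ).union (((cF δ).prod ((((cI δ).mono
      Iio_subset_Iic_self)).prod (countable_univ (α := ℕ)))).image fun z =>
        Nn g δ (⋃ j < z.2.2, σ j ∪ Sg g j z.1) z.2.1)).insert V)
  have k : ∀ {a}, a < δ → ∃ i, e i = a := fun l => he.le (.inr l)
  refine ⟨⟨Y ∩ R, V ∩ R, σ⟩, ⟨⟨fun j => ⟨.inl (.inl (q1 j).1), fun u r => ?_⟩, t5, fun E f =>
    ⟨fun j r => ?_, fun c l n => (hR _ (.inr (.inr ⟨(E, c, n), ⟨f, l, trivial⟩, rfl⟩))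
      (t7 E f c l n)).2.mono fun m r => ⟨r.1, fun t => r.2 t.2⟩⟩⟩, ?_, (hR V (.inl rfl) V2).1,
        fun j => (T2 j).subset fun m r => ⟨V1 r.1.1, fun t => r.2 t.2⟩, fun a l => ?_,
          fun E f j r => (hR _ (.inr (.inl ⟨(E, j, false), ⟨f, trivial⟩, rfl⟩)) ((g4 s f r).mono
            fun m t => ⟨t, trivial⟩)).2.mono fun m t => ⟨t.1.1, fun w => t.2 w.2⟩⟩,
    fun m r => r.1.2.1.2, ?_, V3.imp inter_subset_left.trans inter_subset_left.trans,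
      fun j => ⟨_, f1 (ψ j), fun z r l => r.resolve_right fun t => l.ne (t.1 ▸ rfl)⟩⟩
  · rcases r with (r | r) | r
    · exact (q1 j).2 u r
    · exact let ⟨v, t, w⟩ := g3 s (f1 _) u r; w.trans ((f1 _).2 v t).le
    exact r.1 ▸ le_rfl
  · obtain ⟨n, t, rfl⟩ := d (mc subset_union_left r)
    refine (hR _ (.inr (.inl ⟨(E, φ n, true), ⟨f, trivial⟩, rfl⟩)) ((f4 n E f (mc ?_ r)).mono
      fun m w => ⟨(cu.le w.1.1).2, ?_⟩)).1.mono fun m w => ⟨w.1.1, w.1.2, w.2⟩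
    · simp only [σ, i, su]
      exact fun u w => w.elim (fun w => .inl (.inl (.inl w))) (.imp_left fun w => .inl (.inr w))
    simp only [Y, cond_true, mem_ofPred_eq, w.1.1.1, i]
    exact ⟨⟨n, t, rfl⟩, ⟨(cu.le w.1.1).1, w.1.2⟩, (show b n = β from t) ▸ w.2⟩
  · refine Nat.frequently_atTop_iff_infinite.2 (((infinite_coe_iff.1 hβ).image
      φ1.injective.injOn).mono ?_)
    rintro _ ⟨n, t, rfl⟩
    refine mc (union_subset ?_ fun u r => (r.2 ⟨n, t, rfl⟩).elim) (f3 n)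
    rw [i]
  · obtain ⟨m, rfl⟩ := k l
    refine ⟨(T2 m).subset fun n r => ⟨V1 r.1.1, fun t => r.2 (t.1 l)⟩, ?_⟩
    have z : ∀ j ≥ φ m, j ∈ D → (e m, true) ∈ F (ψ j) := by
      rintro _ r ⟨n, -, rfl⟩
      exact (i n).symm ▸ f2 n ⟨⟨⟨m, φ1.le_iff_le.1 r, rfl⟩, l⟩, rfl⟩
    filter_upwards [eventually_ge_atTop (φ m)] with j r
    exact ⟨fun t u w => .inl (.inr (st (z j r (d t)) w)), finite_empty.subset fun n w => w.2
      ((w.1.1.1.2.1.1.2 _ (z _ (w.1.2 ▸ r) w.1.1.1.1)).2 rfl)⟩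
  cases β
  · exact .inr fun m r => r.1.2.2
  exact .inl fun m r => r.1.2.2

end

theorem sq {α : Type} (d : α) {Q : α → Prop} {R : ℕ → Set α → α → Prop}
    (h : ∀ k K, K.Finite → (∀ z ∈ K, Q z) → ∃ y, Q y ∧ R k K y) :
    ∃ f : ℕ → α, ∀ k, Q (f k) ∧ R k (f '' Iio k) (f k) := by
  obtain ⟨f, e⟩ := MP_bbbdfa_lc.rc d (P := fun (k : ℕ) f y => (∀ z ∈ f '' Iio k, Q z) →
    Q y ∧ R k (f '' Iio k) y) fun k f => (em _).elim (fun r => (h k _ ((finite_Iio k).image f) r).imp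
      fun _ t _ => t) fun r => ⟨d, fun t => (r t).elim⟩
  have i : ∀ k, (fun l => if l < k then f l else d) '' Iio k = f '' Iio k :=
    fun k => image_congr fun l r => if_pos r
  simp only [i] at e
  exact ⟨f, fun k => Nat.strong_induction_on k fun k ih => e k (forall_mem_image.2
    fun l r => (ih l r).1)⟩

theorem rf {β : Type} (ψ : I → I → ℕ → ℕ → β) (a : I → I)
    (h : ∀ c, ∃ C : Set β, C.Countable ∧ ∀ i n m, ψ c i n m ∈ C) : ∃ S : I → Set I,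
      (∀ c, (S c).Countable) ∧ ∀ c N i, c < i → ∃ l, c < l ∧ a l ∈ S c ∧
        ∀ n < N, ∀ m < N, ψ c l n m = ψ c i n m := by
  choose C c1 c2 using h
  let τ (c : I) (N : ℕ) (i : I) (z : Fin N × Fin N) := ψ c i z.1 z.2
  refine ⟨fun c => ⋃ N, a '' (invFunOn (τ c N) (Ioi c) '' Set.univ.pi fun _ => C c), fun c =>
    countable_iUnion fun N => ((countable_univ_pi fun _ => c1 c).image _).image _, fun c N i l => ?_⟩
  obtain ⟨r, t⟩ := invFunOn_pos (f := τ c N) (s := Ioi c) ⟨i, l, rfl⟩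
  exact ⟨_, r, mem_iUnion.2 ⟨N, _, ⟨_, fun z _ => c2 c i z.1 z.2, rfl⟩, rfl⟩,
    fun n u m v => congrFun t (⟨n, u⟩, ⟨m, v⟩)⟩

def Gd (g : I → Dt) (a : I → I) (B : I → Set ℕ) (n : ℕ) (i : I) : Prop :=
  Con ((g (a i)).s n) ∧ (fb (g (a i)).G n \ B i).Finite

def pf (g : I → Dt) (a : I → I) (B : I → Set ℕ) (c i : I) (n m : ℕ) :
    Set (I × Bool) × Prop × Prop × Prop := ((g (a i)).s n ∩ {x | x.1 ≤ c}, n ∈ (g (a i)).G ∩ B i,
      Gd g a B n i, ∀ b, c < b → (b, true) ∈ (g (a i)).s n → m ∉ (g b).T)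

theorem dp (s : ∀ b, P g b (g b)) {a : I → I} {B : I → Set ℕ} {i : I} (a1 : ∀ i, i ≤ a i)
    (a2 : ∀ i, ∀ᶠ j in atTop, (fb (g (a i)).G j \ B i).Finite) (d1 : o < δ) (d2 : δ < i)
    (d3 : ∀ j, ∃ c < δ, ∀ y ∈ (g (a i)).s j, y.1 < δ → y.1 ≤ c)
    (d4 : ∀ c < δ, ∀ N, ∃ l, c < l ∧ a l < δ ∧ ∀ n < N, ∀ m < N, pf g a B c l n m = pf g a B c i n m) :
    ∃ y, Pr g δ y ∧ ∃ J ⊆ Iio δ, J.Infinite ∧ ∀ l ∈ J, y.G ⊆ B l := by
  obtain ⟨ε, e1⟩ := bd (countable_singleton (a i))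
  replace e1 := e1 _ rfl
  have e2 := d2.trans_le (a1 i)
  have s' : ∀ b < ε, P g b (g b) := fun b _ => s b
  choose ρ r1 r2 using d3
  obtain ⟨t, ht⟩ := ((cF δ).prod (((cI δ).mono Iio_subset_Iic_self).prod
    (countable_univ (α := ℕ × ℕ)))).exists_eq_range ⟨(∅, o, 0, 0), ⟨finite_empty, by simp⟩, d1, trivial⟩
  obtain ⟨f, hf⟩ := sq (o, o, 0) (Q := fun z : I × I × ℕ => z.2.1 < z.1 ∧ a z.1 < δ ∧ z.2.1 < δ ∧
    (∀ j < z.2.2, ρ j ≤ z.2.1) ∧ ∀ n < z.2.2, ∀ m < z.2.2, pf g a B z.2.1 z.1 n m = pf g a B z.2.1 i n m)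
    (R := fun k K z => (∀ w ∈ K, a w.1 ≤ z.2.1 ∧ w.2.1 ≤ z.2.1 ∧ w.2.2 ≤ z.2.2) ∧
      (t k).2.1 ≤ z.2.1 ∧ (t k).2.2.1 ≤ z.2.2 ∧ (∃ l < z.2.2, (t k).2.2.1 ≤ l ∧
        (∀ b, (b, true) ∈ (t k).1 → (g b).s l ⊆ (g (a i)).s l) ∧ ∀ q ∈ insert i (Prod.fst '' K),
          (g (a q)).s l ⊆ (g (a i)).s l ∧ Gd g a B l q) ∧
      (∃ x < z.2.2, (t k).2.2.1 ≤ x ∧ (Con (Sg g (t k).2.2.2 ((t k).1 ∪
        (a '' insert i (Prod.fst '' K)) ×ˢ {true})) → (∀ q ∈ insert i (Prod.fst '' K),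
          Gd g a B (t k).2.2.2 q) → x ∈ Cb g (t k).2.2.2 (t k).1 ∧
            ∀ q ∈ insert i (Prod.fst '' K), x ∈ (g (a q)).G ∩ B q)) ∧
      ∃ m < z.2.2, (t k).2.2.1 ≤ m ∧ m ∈ Nn g ε (⋃ j < (t k).2.2.1, Sg g j ((t k).1 ∪
        (a '' insert i (Prod.fst '' K)) ×ˢ {true})) (t k).2.1) fun k K k1 k2 => by
      obtain ⟨t1, t2, -⟩ := ht.ge ⟨k, rfl⟩
      generalize t k = z at *
      obtain ⟨F, c, n, j⟩ := z
      have k3 := (k1.image Prod.fst).insert i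
      have k4 : FF (Iio ε) (F ∪ (a '' insert i (Prod.fst '' K)) ×ˢ {true}) := fu ⟨t1.1, fun u r =>
        (t1.2 u r).trans (e2.trans e1)⟩ ⟨(k3.image a).prod (finite_singleton _), by
          rintro ⟨_, _⟩ ⟨⟨_, rfl | ⟨w, r, rfl⟩, rfl⟩, -⟩
          exacts [e1, (k2 w r).2.1.trans (e2.trans e1)]⟩
      have v : ∀ b < δ, ∀ᶠ l in atTop, Con ((g (a i)).s l) → (g b).s l ⊆ (g (a i)).s l :=
        fun b r => ((s _).2.2.2.2.1 b (r.trans e2)).2.mono fun l w => w.1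
      obtain ⟨l, l1, l2, l3, l4, l5⟩ := ((s (a i)).2.1.and_eventually ((eventually_ge_atTop n).and
        (((eventually_all_finite t1.1).2 fun u r => v _ (t1.2 u r)).and (((eventually_all_finite
          k1).2 fun w r => v _ (k2 w r).2.1).and ((eventually_all_finite k3).2
            fun q _ => a2 q))))).exists
      obtain ⟨x, x1, x2⟩ : ∃ x, n ≤ x ∧ (Con (Sg g j (F ∪ (a '' insert i (Prod.fst '' K)) ×ˢ {true}))
          → (∀ q ∈ insert i (Prod.fst '' K), Gd g a B j q) → x ∈ Cb g j F ∧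
            ∀ q ∈ insert i (Prod.fst '' K), x ∈ (g (a q)).G ∩ B q) := by
        by_contra! w
        obtain ⟨w1, w2, -⟩ := w n le_rfl
        obtain ⟨x, x1, x2⟩ := ((g4 s' k4 w1).sdiff (k3.biUnion fun q r => (w2 q r).2)).exists_gt n
        obtain ⟨q, q1, q2⟩ := (w x x2.le).2.2 (cu.le x1.1).1
        have := (x1.1.2 (a q, true) (.inr ⟨⟨q, q1, rfl⟩, rfl⟩)).2 rfl
        exact x1.2 (mem_biUnion q1 ⟨⟨this, x1.1.1⟩, fun r => q2 ⟨this, r⟩⟩)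
      obtain ⟨m, m1, m2⟩ := (g7 s' k4 (t2.trans (e2.trans e1)) n).exists_gt n
      obtain ⟨N, hN⟩ := ((((k1.image fun w => w.2.2).insert l).insert x).insert m).bddAbove
      obtain ⟨γ, c1, c2, c3⟩ := ub (((k1.image fun w => a w.1).union (k1.image fun w => w.2.1)).union
        ((finite_lt_nat (N + 1)).image ρ)) (union_subset (union_subset (image_subset_iff.2 fun w r =>
          (k2 w r).2.1) (image_subset_iff.2 fun w r => (k2 w r).2.2.1))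
            (image_subset_iff.2 fun j _ => r1 j)) t2
      obtain ⟨q, q1, q2, q3⟩ := d4 γ c1 (N + 1)
      have u : ∀ q ∈ insert i (Prod.fst '' K), (g (a q)).s l ⊆ (g (a i)).s l := by
        rintro _ (rfl | ⟨w, r, rfl⟩)
        exacts [Subset.rfl, l4 w r l1]
      exact ⟨(q, γ, N + 1), ⟨q1, q2, c1, fun j r => c3 _ (.inr ⟨j, r, rfl⟩), q3⟩, fun w r =>
        ⟨c3 _ (.inl (.inl ⟨w, r, rfl⟩)), c3 _ (.inl (.inr ⟨w, r, rfl⟩)),
          (hN (.inr (.inr (.inr ⟨w, r, rfl⟩)))).trans N.le_succ⟩, c2,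
        m2.le.trans ((hN (.inl rfl)).trans N.le_succ), ⟨l, Nat.lt_succ_of_le (hN (by simp)), l2,
          fun b r => l3 _ r l1, fun q r => ⟨u q r, mc (u q r) l1, l5 q r⟩⟩,
        ⟨x, Nat.lt_succ_of_le (hN (by simp)), x1, x2⟩, m, Nat.lt_succ_of_le (hN (by simp)), m2.le, m1⟩
  have mo : ∀ {k l}, k ≤ l → (f k).2.1 ≤ (f l).2.1 ∧ (f k).2.2 ≤ (f l).2.2 := fun {k l} r =>
    r.eq_or_lt.elim (fun e => e ▸ ⟨le_rfl, le_rfl⟩) fun r => ((hf l).2.1 _ ⟨k, r, rfl⟩).2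
  have ag : ∀ {k l n m}, k ≤ l → n < (f k).2.2 → m < (f k).2.2 →
      pf g a B (f l).2.1 (f l).1 n m = pf g a B (f l).2.1 i n m := fun r u v =>
    (hf _).1.2.2.2.2 _ (u.trans_le (mo r).2) _ (v.trans_le (mo r).2)
  let J := insert i (range fun k => (f k).1)
  have al : ∀ {k q}, q ∈ J → q ∈ insert i (Prod.fst '' (f '' Iio k)) ∨ ∃ l, k ≤ l ∧ (f l).1 = q := by
    rintro k _ (rfl | ⟨l, rfl⟩)
    · exact .inl (.inl rfl)
    exact (lt_or_ge l k).imp (fun r => .inr ⟨_, ⟨l, r, rfl⟩, rfl⟩) fun r => ⟨l, r, rfl⟩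
  have la : ∀ {k q}, q ∈ insert i (Prod.fst '' (f '' Iio k)) → q ∈ J := by
    rintro k _ (rfl | ⟨_, ⟨l, -, rfl⟩, rfl⟩)
    exacts [.inl rfl, .inr ⟨l, rfl⟩]
  have tk : ∀ F, FF (Iio δ) F → ∀ c < δ, ∀ n j, ∃ k, t k = (F, c, n, j) :=
    fun F r c w n j => ht.le ⟨r, w, trivial⟩
  have tr : ∀ {k l n y}, k ≤ l → n < (f k).2.2 → y ∈ (g (a (f l).1)).s n → y.1 ≤ (f l).2.1 →
      y ∈ (g (a i)).s n := fun r u v w => ((congrArg Prod.fst (ag r u u)).le ⟨v, w⟩).1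
  have s3 := fun b j => ((s b).1.1 j).2
  refine ⟨⟨⋂ q ∈ J, (g (a q)).G ∩ B q, ∅, fun j => {(δ, true)} ∪ {u | u.1 < δ ∧ ∃ q ∈ J,
    u ∈ (g (a q)).s j} ∪ {u | u = (δ, false) ∧ ¬ ∀ q ∈ J, Gd g a B j q}⟩, ⟨⟨fun j => ⟨.inl (.inl rfl),
      ?_⟩, fun j c r => ?_, fun F r => ⟨fun j w => infinite_of_forall_exists_gt fun n => ?_,
        fun c w n => infinite_of_forall_exists_gt fun M => ?_⟩⟩, fun u r w =>
          frequently_atTop.2 fun n => ?_⟩, range fun k => (f k).1, range_subset_iff.2 fun k =>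
            (a1 _).trans_lt (hf k).1.2.1, infinite_range_of_injective (StrictMono.injective
              fun k l r => ((a1 _).trans ((hf l).2.1 _ ⟨k, r, rfl⟩).1).trans_lt (hf l).1.1),
                fun l r => (biInter_subset_of_mem (.inr r)).trans inter_subset_right⟩
  · rintro _ ((rfl | r) | ⟨rfl, -⟩)
    exacts [le_rfl, r.1.le, le_rfl]
  · obtain ⟨k, e⟩ := tk ∅ ⟨finite_empty, by simp⟩ c r (j + 1) 0
    obtain ⟨-, h1, h2, -⟩ := (hf k).2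
    rw [e] at h1 h2
    obtain ⟨F, f1, f2⟩ := tb (c := c) (j := j) ((((finite_Iio k).image f).image Prod.fst).insert i)
      fun q v => t1 s' (show a q < ε by
        rcases v with rfl | ⟨_, ⟨l, -, rfl⟩, rfl⟩
        exacts [e1, (hf l).1.2.1.trans (e2.trans e1)])
    refine ⟨F, f1, f2 ▸ Subset.antisymm ?_ fun y v => let ⟨q, q1, q2⟩ := mem_iUnion₂.1 v.1
      ⟨.inl (.inr ⟨v.2.trans_lt r, q, la q1, q2⟩), v.2⟩⟩
    rintro y ⟨(rfl | ⟨-, q, q1, q2⟩) | ⟨rfl, -⟩, v⟩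
    · exact (r.not_ge v).elim
    · rcases al (k := k) q1 with q3 | ⟨l, q3, rfl⟩
      · exact ⟨mem_biUnion q3 q2, v⟩
      exact ⟨mem_biUnion (.inl rfl) (tr q3 h2 q2 (v.trans (h1.trans (mo q3).1))), v⟩
    exact (r.not_ge v).elim
  · obtain ⟨k, e⟩ := tk F r o d1 (n + 1) j
    obtain ⟨-, -, -, -, ⟨x, x1, x2, x3⟩, -⟩ := (hf k).2
    rw [e] at x2 x3
    have z : ∀ q ∈ J, Gd g a B j q := by_contra fun v => w δ (.inl (.inl (.inl rfl))) (.inl (.inr ⟨rfl, v⟩))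
    have y : ∀ u ∈ Sg g j (F ∪ (a '' insert i (Prod.fst '' (f '' Iio k))) ×ˢ {true}),
        (u.1 < δ → u ∈ {u | u.1 < δ ∧ ∃ q ∈ J, u ∈ (g (a q)).s j} ∪ Sg g j F) ∧
          (δ ≤ u.1 → u ∈ (g (a i)).s j) := fun u v => by
      rcases su.le v with v | v
      · exact ⟨fun _ => .inr v, fun y => let ⟨b, b1, b2⟩ := g3 (fun b _ => s b) r u v
          ((r.2 b b1).not_ge (y.trans b2)).elim⟩
      rcases ss v with ⟨_, ⟨⟨q, q1, rfl⟩, -⟩, v1⟩ | v1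
      · refine ⟨fun y => .inl ⟨y, q, la q1, v1⟩, fun y => ?_⟩
        rcases q1 with rfl | ⟨_, ⟨l, -, rfl⟩, rfl⟩
        · exact v1
        exact ((hf l).1.2.1.not_ge (y.trans (s3 _ _ u v1))).elim
      exact absurd (v1.2.symm.trans v1.1.2) (by simp)
    obtain ⟨x4, x5⟩ := x3 (fun b u v => (lt_or_ge b δ).elim (fun l => w b (((y _ u).1 l).imp_left
      fun r => .inl (.inr r)) (((y _ v).1 l).imp_left fun r => .inl (.inr r))) fun l =>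
        (z i (.inl rfl)).1 b ((y _ u).2 l) ((y _ v).2 l)) fun q v => z q (la v)
    refine ⟨x, ⟨x4, mem_iInter₂.2 fun q v => (al (k := k) v).elim (x5 q) ?_⟩, x2⟩
    rintro ⟨l, v1, rfl⟩
    exact (congrArg (·.2.1) (ag v1 x1 x1)).mpr (x5 i (.inl rfl))
  · obtain ⟨k, e⟩ := tk F r c w (max n (M + 1)) 0
    obtain ⟨-, h1, h2, -, -, m, m1, m2, m3⟩ := (hf k).2
    rw [e] at h1 h2 m2 m3
    refine ⟨m, ⟨⟨m3.1, fun b v y => ?_⟩, id⟩, (le_max_right _ _).trans m2⟩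
    obtain ⟨j, j1, y⟩ := mem_iUnion₂.1 y
    replace j1 := j1.trans_le (le_max_left n (M + 1))
    have z : ∀ b, c < b → ∀ q ∈ insert i (Prod.fst '' (f '' Iio k)), a q < ε →
        (b, true) ∈ (g (a q)).s j → m ∉ (g b).T := fun b v q q1 q2 y => m3.2 b
      ⟨v, (s3 _ _ _ y).trans_lt q2⟩ (mem_biUnion j1 (st (.inr ⟨⟨q, q1, rfl⟩, rfl⟩) y))
    rcases y with ((y | ⟨-, q, q1, y⟩) | y) | y
    · exact (v.2.ne (Prod.mk.inj y).1).elim
    · rcases al (k := k) q1 with q2 | ⟨l, q2, rfl⟩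
      · exact m3.2 b ⟨v.1, v.2.trans (e2.trans e1)⟩ (mem_biUnion j1 (st (.inr ⟨⟨q, q2, rfl⟩, rfl⟩) y))
      rcases le_or_gt b (f l).2.1 with u | u
      · exact z b v.1 i (.inl rfl) e1 (tr q2 (j1.trans_le h2) y u)
      exact (congrArg (·.2.2.2) (ag q2 (j1.trans_le h2) m1)).mpr (fun b u =>
        z b ((h1.trans (mo q2).1).trans_lt u) i (.inl rfl) e1) b u y
    · simp at y
    exact m3.2 b ⟨v.1, v.2.trans (e2.trans e1)⟩ (mem_biUnion j1 (sm subset_union_left y))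
  have r' : FF (Iio δ) (u ×ˢ {true}) := ⟨w.prod (finite_singleton _), fun _ v => r v.1⟩
  obtain ⟨k, e⟩ := tk _ r' o d1 n 0
  obtain ⟨-, -, -, ⟨l, l1, l2, l3, l4⟩, -⟩ := (hf k).2
  rw [e] at l2 l3
  have z : ∀ q ∈ J, Gd g a B l q := fun q v => (al (k := k) v).elim (fun v => (l4 q v).2) <| by
    rintro ⟨m, v1, rfl⟩
    exact (congrArg (·.2.2.1) (ag v1 l1 l1)).mpr (l4 i (.inl rfl)).2
  have y : ∀ y ∈ {(δ, true)} ∪ {u | u.1 < δ ∧ ∃ q ∈ J, u ∈ (g (a q)).s l} ∪ {u | u = (δ, false) ∧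
      ¬ ∀ q ∈ J, Gd g a B l q} ∪ Sg g l (u ×ˢ {true}), y = (δ, true) ∨ y.1 < δ ∧ (y ∈ (g (a i)).s l ∨
        ∃ m, k ≤ m ∧ y ∈ (g (a (f m).1)).s l ∧ (f m).2.1 < y.1) := by
    rintro y (((v | ⟨v, q, q1, q2⟩) | v) | v)
    · exact .inl v
    · refine .inr ⟨v, ?_⟩
      rcases al (k := k) q1 with q3 | ⟨m, q3, rfl⟩
      · exact .inl ((l4 q q3).1 q2)
      exact (le_or_gt y.1 (f m).2.1).imp (tr q3 l1 q2) fun v => ⟨m, q3, q2, v⟩
    · exact (v.2 z).elim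
    obtain ⟨b, b1, b2⟩ := g3 (fun b _ => s b) r' y v
    refine .inr ⟨b2.trans_lt (r'.2 b b1), .inl ?_⟩
    rcases ss v with ⟨b, b1, v⟩ | v
    · exact l3 b b1 v
    exact absurd (v.2.symm.trans v.1.2) (by simp)
  have x : ∀ {b β m}, b < δ → k ≤ m → (b, β) ∈ (g (a i)).s l → ¬ (f m).2.1 < b := fun u v w =>
    ((r2 l _ w u).trans ((hf _).1.2.2.2.1 l (l1.trans_le (mo v).2))).not_gt
  refine ⟨l, l2, fun b u v => ?_⟩
  obtain ⟨h1, v⟩ := (y _ v).resolve_left (by simp)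
  obtain ⟨-, u⟩ := (y _ u).resolve_left fun e => h1.ne (Prod.mk.inj e).1
  rcases u with u | ⟨m, m1, m2, m3⟩ <;> rcases v with v | ⟨m', n1, n2, n3⟩
  · exact (z i (.inl rfl)).1 b u v
  · exact x h1 n1 u n3
  · exact x h1 m1 v m3
  rcases lt_trichotomy m m' with c | rfl | c
  · exact n3.not_ge ((s3 _ _ _ m2).trans ((hf m').2.1 _ ⟨m, c, rfl⟩).1)
  · exact (z _ (.inr ⟨m, rfl⟩)).1 b m2 n2
  exact m3.not_ge ((s3 _ _ _ n2).trans ((hf m).2.1 _ ⟨m', c, rfl⟩).1)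

end Pool.Agent.H.MP_0d317a_lc
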