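import Mathlib
import Pool.Agent.H.MP_0d317a_lc.B

set_option autoImplicit false

namespace Pool.Agent.H.MP_0d317a_lc

open Set Filter Function Cardinal Pool.Agent.H.MP_77d395_lc Pool.Agent.H.MP_6e75db_lc
open Pool.Agent.H.MP_522602_lc (p fb)
open Pool.Agent.H.MP_2e4b78_lc (Dia)

/-- Tukey reducibility: a map sending unbounded sets to unbounded sets -/
def Tk {α β : Type} (r : α → α → Prop) (s : β → β → Prop) : Prop :=
  ∃ f : α → β, ∀ S : Set α, (¬ ∃ a, ∀ x ∈ S, r x a) → ¬ ∃ b, ∀ y ∈ f '' S, s y b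

/-- reverse inclusion on an ultrafilter -/
def Sup (U : Ultrafilter ℕ) (A B : {A // A ∈ U}) : Prop := B.1 ⊆ A.1

/-- reverse almost inclusion on an ultrafilter -/
def Sst (U : Ultrafilter ℕ) (A B : {A // A ∈ U}) : Prop := (B.1 \ A.1).Finite

/-- inclusion of finite subsets of a set of size continuum -/
def Fc (A B : Finset ℝ) : Prop := A ⊆ B

/-- every countable subfamily has a pseudo-intersection in the ultrafilter -/
def Pp (U : Ultrafilter ℕ) : Prop :=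
  ∀ A : ℕ → Set ℕ, (∀ n, A n ∈ U) → ∃ B ∈ U, ∀ n, (B \ A n).Finite

/-- the Fubini product, moved to the naturals by the pairing bijection -/
noncomputable def Fub (U V : Ultrafilter ℕ) : Ultrafilter ℕ := U.bind fun n => V.map (Nat.pair n)

theorem dg (hd : Dia) : ∃ D : I → I → Set ℕ, ∀ (B : I → Set ℕ) (S : I → Set I),
    (∀ c, (S c).Countable) → ∃ δ, o < δ ∧ (∀ c < δ, ∀ x ∈ S c, x < δ) ∧ ∀ i < δ, D δ i = B i := by
  obtain ⟨D, hD⟩ := hd
  obtain ⟨π⟩ := (le_def (I × ℕ) I).1 (by simp)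
  refine ⟨fun δ i => {n | π (i, n) ∈ D δ}, fun B S c => ?_⟩
  obtain ⟨δ, d1, d2, d3⟩ := hD (π '' {z | z.2 ∈ B z.1}) (MP_2e4b78_lc.cc (fun f => (bd
    (countable_range f)).imp fun b h n => h _ ⟨n, rfl⟩) (fun c => S c ∪ range fun n => π (c, n))
      (fun a => (bd ((cI a).biUnion fun γ _ => (c γ).union (countable_range fun n => π (γ, n)))).imp
        fun b h γ l x p => h x (mem_biUnion l p)) o)
  refine ⟨δ, d2, fun c l x r => d3 c l x (.inl r), fun i l => ext fun n => ?_⟩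
  rw [mem_ofPred_eq, ← show _ = D δ from d1, mem_inter_iff, π.injective.mem_set_image]
  exact and_iff_left (d3 i l _ (.inr ⟨n, rfl⟩))

theorem ua (ℱ : I → Filter ℕ) (m : Antitone ℱ) (n : ∀ a, (ℱ a).NeBot)
    (d : ∀ S, ∃ a, S ∈ ℱ a ∨ Sᶜ ∈ ℱ a) : ∃ U : Ultrafilter ℕ, ∀ A, A ∈ U ↔ ∃ a, A ∈ ℱ a := by
  have := iInf_neBot_of_directed' m.directed_ge n
  have k : ∀ A a, A ∈ ℱ a → A ∈ Ultrafilter.of (iInf ℱ) :=
    fun A a r => Ultrafilter.of_le _ (mem_iInf_of_mem a r)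
  exact ⟨.of (iInf ℱ), fun A => ⟨fun r => (d A).imp fun a t => t.resolve_right fun t =>
    Ultrafilter.compl_mem_iff_notMem.1 (k _ a t) r, fun ⟨a, r⟩ => k A a r⟩⟩

theorem mi {T A : Set ℕ} : A ∈ cofinite ⊓ 𝓟 T ↔ (T \ A).Finite := by
  rw [mem_inf_principal, mem_cofinite]
  exact iff_of_eq (congrArg _ (ext fun n => by simp))

theorem ft {A B C : Set ℕ} (h : (A \ B).Finite) (k : (B \ C).Finite) : (A \ C).Finite :=
  (h.union k).subset fun n r => (em (n ∈ B)).symm.imp (⟨r.1, ·⟩) (⟨·, r.2⟩)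

theorem ex (hd : Dia) : ∃ (V W : Ultrafilter ℕ) (G T : I → Set ℕ), (∀ a, G a ∈ V ∧ T a ∈ W) ∧
    (∀ J : Set I, J.Infinite → (⋂ a ∈ J, G a) ∈ V → (⋂ a ∈ J, T a) ∉ W) ∧
    (∀ B : I → Set ℕ, (∀ i, B i ∈ V) → ∃ J : Set I, J.Infinite ∧ (⋂ i ∈ J, B i) ∈ V) ∧ Pp W ∧
    (∀ n, {n} ∉ V) ∧ ∀ n, {n} ∉ W := by
  obtain ⟨D, hD⟩ := dg hd
  obtain ⟨g, hg⟩ := MP_bbbdfa_lc.rc (⟨∅, ∅, fun _ => ∅⟩ : Dt) (P := fun a g x =>
    (∀ b < a, P g b (g b)) → P g a x ∧ (x.G ⊆ D a o ∨ x.G ⊆ (D a o)ᶜ) ∧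
      (x.T ⊆ D a o ∨ x.T ⊆ (D a o)ᶜ) ∧ ((∃ J ⊆ Iio a, J.Infinite ∧ ∀ l ∈ J, x.G ⊆ D a l) ∨
        (∀ j, ∃ u ⊆ Iio a, u.Finite ∧ ∀ y ∈ x.s j, y.1 < a → ∃ b ∈ u, y.1 ≤ b) ∧
          ¬ ∃ y, Pr g a y ∧ ∃ J ⊆ Iio a, J.Infinite ∧ ∀ l ∈ J, y.G ⊆ D a l)) fun a g => by
      by_cases s : ∀ b < a, P g b (g b)
      swap
      · exact ⟨⟨∅, ∅, fun _ => ∅⟩, fun r => (s r).elim⟩
      by_cases k : ∃ y, Pr g a y ∧ ∃ J ⊆ Iio a, J.Infinite ∧ ∀ l ∈ J, y.G ⊆ D a l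
      · obtain ⟨y, q, J, j1, j2, j3⟩ := k
        exact (fin s q (D a o)).imp fun x r _ => ⟨r.1, r.2.2.1, r.2.2.2.1,
          .inl ⟨J, j1, j2, fun l t => r.2.1.trans (j3 l t)⟩⟩
      exact (fin s (tp s) (D a o)).imp fun x r _ => ⟨r.1, r.2.2.1, r.2.2.2.1, .inr ⟨fun j =>
        let ⟨F, f, t⟩ := r.2.2.2.2 j; ⟨_, image_subset_iff.2 f.2, f.1.image Prod.fst, fun y v l =>
          let ⟨u, w, z⟩ := g3 s f y ((t y v l).resolve_left fun e => l.ne (e ▸ rfl))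
          ⟨_, ⟨u, w, rfl⟩, z⟩⟩, k⟩⟩
  have k : ∀ a, (∀ b < a, P g b (g b)) → ∀ b < a, P (fun b => if b < a then g b else
      ⟨∅, ∅, fun _ => ∅⟩) b (if b < a then g b else ⟨∅, ∅, fun _ => ∅⟩) := fun a ih b l => by
    rw [if_pos l]
    exact cp (fun c r => (if_pos (r.trans l)).symm) (ih b l)
  have s : ∀ a, P g a (g a) := fun a => wellFounded_lt.induction (C := fun a => P g a (g a)) a
    fun a ih => cp (fun b l => if_pos l) (hg a (k a ih)).1
  replace hg := fun a => (hg a (k a fun b _ => s b)).2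
  have d : ∀ S, ∃ a, D a o = S := fun S =>
    (hD (fun _ => S) (fun _ => ∅) fun _ => countable_empty).imp fun a r => r.2.2 o r.1
  have z : ∀ {a F j}, FF (Iic a) F → Con (Sg g j F) → (Cb g j F).Infinite := fun {a F j} f =>
    let ⟨b, l⟩ := bd (countable_singleton a)
    g4 (δ := b) (fun b _ => s b) ⟨f.1, fun u r => (f.2 u r).trans_lt (l a rfl)⟩
  have mV : ∀ {a A}, A ∈ (atTop.bind fun j => cofinite ⊓ 𝓟 (fb (g a).G j)) ↔
      ∀ᶠ j in atTop, (fb (g a).G j \ A).Finite := by simp only [mem_bind', mi]; rfl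
  obtain ⟨V, hV⟩ := ua (fun a => atTop.bind fun j => cofinite ⊓ 𝓟 (fb (g a).G j))
    (fun b a l => l.eq_or_lt.elim (· ▸ le_rfl) fun l A r => mV.2 (((mV.1 r).and
      ((s a).2.2.2.2.1 b l).2).mono fun j t => (t.1.union t.2.2).subset fun n w =>
        (em (n ∈ (g b).G)).imp (fun y => ⟨⟨y, w.1.2⟩, w.2⟩) fun y => ⟨w.1, y⟩))
    (fun a => ⟨fun r => let ⟨j, t, w⟩ := ((s a).2.1.and_eventually (mV.1 (empty_mem_iff_bot.2 r))).exists
      z (F := {(a, true)}) ⟨finite_singleton _, fun _ r => by rw [r]; exact self_mem_Iic⟩ (by simpa [Sg] using t)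
        (w.subset fun n y => ⟨⟨(y.2 _ rfl).2 rfl, y.1⟩, id⟩)⟩)
    fun S => (d S).imp fun a (e : D a o = S) => e ▸ (hg a).1.imp (fun r => mV.2 (.of_forall fun j =>
      finite_empty.subset fun n t => t.2 (r t.1.1))) fun r => mV.2 (.of_forall fun j =>
        finite_empty.subset fun n t => t.2 (r t.1.1))
  have t : ∀ {a b}, b ≤ a → ((g a).T \ (g b).T).Finite := fun {a b} l =>
    let ⟨c, r⟩ := bd (countable_singleton a); td (δ := c) (fun b _ => s b) l (r a rfl)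
  obtain ⟨W, hW⟩ := ua (fun a => cofinite ⊓ 𝓟 (g a).T) (fun b a l A r => mi.2 (ft (t l) (mi.1 r)))
    (fun a => ⟨fun r => (s a).2.2.1 (by simpa using mi.1 (empty_mem_iff_bot.2 r))⟩)
    fun S => (d S).imp fun a (e : D a o = S) => e ▸ (hg a).2.1.imp (fun r => mi.2 (finite_empty.subset
      fun n t => t.2 (r t.1))) fun r => mi.2 (finite_empty.subset fun n t => t.2 (r t.1))
  simp only [mV, mi] at hV hW
  have v : ∀ {A b}, A ∈ V → ∃ a, b ≤ a ∧ ∀ᶠ j in atTop, (fb (g a).G j \ A).Finite := fun {A b} r => by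
    obtain ⟨a, r⟩ := (hV A).1 r
    rcases le_or_gt b a with l | l
    · exact ⟨a, l, r⟩
    exact ⟨b, le_rfl, (r.and ((s b).2.2.2.2.1 a l).2).mono fun j t => (t.1.union t.2.2).subset
      fun n w => (em (n ∈ (g a).G)).imp (fun y => ⟨⟨y, w.1.2⟩, w.2⟩) fun y => ⟨w.1, y⟩⟩
  have gv : ∀ a, (g a).G ∈ V := fun a => (hV _).2 ⟨a, .of_forall fun j =>
    finite_empty.subset fun n t => t.2 t.1.1⟩
  refine ⟨V, W, fun a => (g a).G, fun a => (g a).T, fun a => ⟨gv a, (hW _).2 ⟨a, by simp⟩⟩,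
    fun J i r w => ?_, fun B r => ?_, fun A r => ?_, fun n => Ultrafilter.compl_mem_iff_notMem.1
      ((hV _).2 ⟨o, .of_forall fun j => (finite_singleton n).subset fun m t => not_not.1 t.2⟩),
    fun n => Ultrafilter.compl_mem_iff_notMem.1 ((hW _).2 ⟨o, (finite_singleton n).subset
      fun m t => not_not.1 t.2⟩)⟩
  · obtain ⟨c, w⟩ := (hW _).1 w
    obtain ⟨b, l⟩ := bd ((countable_range fun n => (i.natEmbedding J n).1).insert c)
    obtain ⟨a, u, r⟩ := v (b := b) r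
    obtain ⟨j, j1, j2⟩ := ((s a).2.1.and_eventually r).exists
    obtain ⟨m, m1, m2⟩ := (s a).2.2.1.exists_notMem_finite (((s a).2.2.2.1 j).union
      (ft (t ((l c (.inl rfl)).le.trans u)) w))
    refine infinite_range_of_injective (Subtype.val_injective.comp (i.natEmbedding J).injective)
      ((show m ∈ Xx g (Iio a) ((g a).s j) from by_contra fun y => m2 (.inl ⟨m1, y⟩)).subset ?_)
    rintro _ ⟨n, rfl⟩
    have y := (l _ (.inr ⟨n, rfl⟩)).trans_le u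
    refine ⟨y, by_contra fun x => z (a := a) (F := {(a, true), ((i.natEmbedding J n).1, false)})
      (j := j) ⟨toFinite _, by simpa using y.le⟩ (fun b e f => ?_) (j2.subset fun q e => ⟨⟨(e.2 _
        (.inl rfl)).2 rfl, e.1⟩, fun f => by simpa using (e.2 _ (.inr rfl)).1 (mem_iInter₂.1 f _
          (i.natEmbedding J n).2)⟩), mem_iInter₂.1 (by_contra fun y => m2 (.inr ⟨m1, y⟩) : m ∈ ⋂ a ∈ J, _) _
            (i.natEmbedding J n).2⟩
    simp [Sg] at e f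
    exact f.elim (fun f => x (by subst f; exact e)) (j1 b e)
  · choose a a1 a2 using fun i => v (b := i) (r i)
    obtain ⟨S, S1, S2⟩ := rf (pf g a B) a fun c => by
      obtain ⟨b, l⟩ := bd (countable_singleton c)
      refine ⟨(⋃ j, Sg g j '' {F | FF (Iio b) F}) ×ˢ Set.univ, (countable_iUnion fun j =>
        (cF b).image _).prod countable_univ, fun i n m => ⟨?_, trivial⟩⟩
      obtain ⟨e, e1⟩ := bd (countable_singleton (a i))
      obtain ⟨F, f1, f2⟩ := t1 (δ := e) (j := n) (c := c) (fun b _ => s b) (e1 _ rfl)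
      exact mem_iUnion.2 ⟨n, F, ⟨f1.1, fun u r => (f1.2 u r).trans_lt (l c rfl)⟩, f2.symm⟩
    obtain ⟨δ, d1, d2, d3⟩ := hD B S S1
    rcases (hg δ).2.2 with ⟨J, j1, j2, j3⟩ | ⟨j1, j2⟩
    · exact ⟨J, j2, mem_of_superset (gv δ) (subset_iInter₂ fun l w => d3 l (j1 w) ▸ j3 l w)⟩
    obtain ⟨i, l⟩ := bd (countable_singleton δ)
    replace l := l δ rfl
    obtain ⟨y, y1, J, y2, y3, y4⟩ := dp s a1 a2 d1 l (fun j => by
      obtain ⟨F, f1, f2⟩ := (s (a i)).1.2.1 j δ (l.trans_le (a1 i))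
      obtain ⟨u, u1, u2, u3⟩ := j1 j
      obtain ⟨c, c1, -, c2⟩ := ub (u2.union ((f1.1.image Prod.fst).inter_of_left (Iio δ)))
        (union_subset u1 inter_subset_right) d1
      refine ⟨c, c1, fun y w x => ?_⟩
      rcases ss (f2.le ⟨w, x.le⟩) with ⟨b, b1, b2⟩ | b1
      · rcases (mem_Iic.1 (f1.2 _ b1)).eq_or_lt with e | e
        · exact let ⟨b, b1, b2⟩ := u3 y (e ▸ b2) x; b2.trans (c2 b (.inl b1))
        exact (((s b).1.1 j).2 y b2).trans (c2 b (.inr ⟨⟨_, b1, rfl⟩, e⟩))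
      exact c2 _ (.inr ⟨⟨y, b1.1, rfl⟩, x⟩)) fun c w N =>
        (S2 c N i (w.trans l)).imp fun q x => ⟨x.1, d2 c w _ x.2.1, x.2.2⟩
    exact (j2 ⟨y, cr (fun b l => (if_pos l).symm) y1, J, y2, y3,
      fun l w => (d3 l (y2 w)).symm ▸ y4 l w⟩).elim
  choose a ha using fun n => (hW _).1 (r n)
  obtain ⟨b, l⟩ := bd (countable_range a)
  exact ⟨_, (hW _).2 ⟨b, by simp⟩, fun n => ft (t (l _ ⟨n, rfl⟩).le) (ha n)⟩

theorem pn {W : Ultrafilter ℕ} (h : Pp W) {ι : Type} [Uncountable ι] {B : ι → Set ℕ}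
    (b : ∀ i, B i ∈ W) : ∃ J : Set ι, J.Infinite ∧ (⋂ i ∈ J, B i) ∈ W := by
  obtain ⟨i, k⟩ : ∃ i, ∀ n, {l | B l ∩ Iio n = B i ∩ Iio n}.Infinite := by
    by_contra! k
    refine not_countable_univ ((countable_iUnion fun n : ℕ => (countable_ofPred_finite_subset
      (countable_univ (α := ℕ))).biUnion fun t _ => show {l | B l ∩ Iio n = t ∧
        {l | B l ∩ Iio n = t}.Finite}.Countable from ?_).mono fun i _ => let ⟨n, r⟩ := k i
          mem_iUnion.2 ⟨n, mem_biUnion (x := B i ∩ Iio n) (And.intro ((finite_Iio n).inter_of_right _)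
            (subset_univ _)) (And.intro rfl r)⟩)
    by_cases r : {l | B l ∩ Iio n = t}.Finite
    · exact r.countable.mono fun _ r => r.1
    simp [r]
  obtain ⟨l, hl⟩ := sq i (Q := fun _ => True) (R := fun n K y => B y ∩ Iio n = B i ∩ Iio n ∧ y ∉ K)
    fun n K f _ => ((k n).exists_notMem_finite f).imp fun _ r => ⟨trivial, r⟩
  have j : Injective l := Injective.of_lt_imp_ne fun m n r e => (hl n).2.2 ⟨m, r, e⟩
  obtain ⟨X, x1, x2⟩ := h (fun n => B (l n)) fun n => b _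
  choose u hu using fun n => (x2 n).bddAbove
  let φ : ℕ → ℕ := fun n => n.rec 0 fun _ x => max x (u x) + 1
  have m : StrictMono φ := strictMono_nat_of_lt_succ fun n => Nat.lt_succ_of_le (le_max_left _ _)
  have w : ∀ {n k}, n ∈ (X ∩ B i) \ B (l (φ k)) → φ k ≤ n ∧ n < φ (k + 1) := fun {n k} r =>
    ⟨not_lt.1 fun t => r.2 ((hl _).2.1.ge ⟨r.1.2, t⟩).1,
      Nat.lt_succ_of_le ((hu _ ⟨r.1.1, r.2⟩).trans (le_max_right _ _))⟩
  obtain ⟨c, e⟩ : ∃ c, (⋃ k, (X ∩ B i) \ B (l (φ (2 * k + c)))) ∉ W := by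
    by_contra! e
    obtain ⟨n, r, t⟩ := W.nonempty_of_mem (inter_mem (e 0) (e 1))
    obtain ⟨k, r⟩ := mem_iUnion.1 r
    obtain ⟨q, t⟩ := mem_iUnion.1 t
    have r := w r
    have t := w (k := 2 * q + 1) t
    have := (m.lt_iff_lt (b := 2 * q + 1 + 1)).1 (r.1.trans_lt t.2)
    have := (m.lt_iff_lt (a := 2 * q + 1) (b := 2 * k + 0 + 1)).1 (t.1.trans_lt r.2)
    omega
  refine ⟨range fun k => l (φ (2 * k + c)), infinite_range_of_injective fun _ _ e => by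
    have := m.injective (j e); omega, mem_of_superset (inter_mem (inter_mem x1 (b i))
      (Ultrafilter.compl_mem_iff_notMem.2 e)) fun n r => mem_iInter₂.2 ?_⟩
  rintro _ ⟨k, rfl⟩
  exact by_contra fun t => r.2 (mem_iUnion.2 ⟨k, r.1, t⟩)

theorem nt {α : Type} {r : α → α → Prop} (e : ℝ ≃ I)
    (h : ∀ B : I → α, ∃ J : Set I, J.Infinite ∧ ∃ b, ∀ i ∈ J, r (B i) b) : ¬ Tk Fc r := fun ⟨f, k⟩ =>
  let ⟨J, i, b, t⟩ := h fun i => f {e.symm i}
  k ((fun i => {e.symm i}) '' J) (fun ⟨a, w⟩ => (i.image e.symm.injective.injOn) (a.finite_toSet.subset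
    (image_subset_iff.2 fun l v => Finset.singleton_subset_iff.1 (w _ ⟨l, v, rfl⟩))))
    ⟨b, forall_mem_image.2 (forall_mem_image.2 t)⟩

theorem mf {U V : Ultrafilter ℕ} {A : Set ℕ} : A ∈ Fub U V ↔ {n | {m | n.pair m ∈ A} ∈ V} ∈ U := mb

theorem main (hd : Dia) : ∃ U V : Ultrafilter ℕ, (∀ n, {n} ∉ U) ∧ (∀ n, {n} ∉ V) ∧
    ¬ Tk Fc (Sup U) ∧ ¬ Tk Fc (Sup V) ∧ Tk Fc (Sup (Fub U V)) ∧ ¬ Tk Fc (Sst (Fub U V)) ∧
      (∀ n, {n} ∉ Fub U V) ∧ ¬ Pp (Fub U V) := by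
  classical
  obtain ⟨e⟩ : Nonempty (ℝ ≃ I) := by
    obtain ⟨D, hD⟩ := dg hd
    choose a ha using fun S => (hD (fun _ => S) (fun _ => ∅) fun _ => countable_empty).imp
      fun a r => r.2.2 o r.1
    exact Cardinal.eq.1 (le_antisymm (by simpa [mk_real] using mk_le_of_injective (LeftInverse.injective
      (g := fun a => D a o) ha)) (by simp [mk_real, aleph0_lt_continuum]))
  have : Uncountable I := e.symm.surjective.uncountable
  obtain ⟨U, V, G, T, h1, h2, h3, h4, h5, h6⟩ := ex hd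
  have n : ∀ {W : Ultrafilter ℕ}, (∀ B : I → Set ℕ, (∀ i, B i ∈ W) → ∃ J : Set I, J.Infinite ∧
      (⋂ i ∈ J, B i) ∈ W) → ¬ Tk Fc (Sup W) := fun h => nt e fun B =>
    (h _ fun i => (B i).2).imp fun J r => ⟨r.1, ⟨⋂ i ∈ J, (B i).1, r.2⟩,
      fun i t => biInter_subset_of_mem (t := fun i => (B i).1) t⟩
  have z : ∀ J : Set I, J.Infinite → (⋂ i ∈ J, {n | n.unpair.1 ∈ G i ∧ n.unpair.2 ∈ T i}) ∉ Fub U V :=
    fun J i r => by
      obtain ⟨n, t⟩ := U.nonempty_of_mem (mf.1 r)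
      exact h2 J i (mem_of_superset (mf.1 r) fun n t => let ⟨m, w⟩ := V.nonempty_of_mem t
        mem_iInter₂.2 fun a v => by simpa using (mem_iInter₂.1 w a v).1) (mem_of_superset t
          fun m w => mem_iInter₂.2 fun a v => by simpa using (mem_iInter₂.1 w a v).2)
  have y : ∀ i, {n | n.unpair.1 ∈ G i ∧ n.unpair.2 ∈ T i} ∈ Fub U V := fun i =>
    mf.2 (mem_of_superset (h1 i).1 fun n r => mem_of_superset (h1 i).2 fun m t => by simpa using ⟨r, t⟩)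
  have t : Tk Fc (Sup (Fub U V)) := ⟨fun F => ⟨⋂ i ∈ F, {n | n.unpair.1 ∈ G (e i) ∧
    n.unpair.2 ∈ T (e i)}, (biInter_finset_mem F).2 fun i _ => y _⟩, fun S r ⟨b, w⟩ =>
      z (e '' ⋃ F ∈ S, F) (.image e.injective.injOn fun f => r ⟨f.toFinset, fun F v i u =>
        f.mem_toFinset.2 (mem_biUnion v u)⟩) (mem_of_superset b.2 (subset_iInter₂
          (forall_mem_image.2 fun i v => let ⟨F, v, u⟩ := mem_iUnion₂.1 v
            (w _ ⟨F, v, rfl⟩).trans (biInter_subset_of_mem (s := (F : Set ℝ)) u))))⟩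
  refine ⟨U, V, h5, h6, n h3, n fun B => pn h4, t, nt e fun B => ?_, fun m r => ?_,
    fun r => n (fun B => pn r) t⟩
  · obtain ⟨J, i, r⟩ := h3 (fun i => {n | {m | n.pair m ∈ (B i).1} ∈ V}) fun i => mf.1 (B i).2
    let f (k : ℕ) := (i.natEmbedding J k).1
    have w : ∀ n ∈ ⋂ i ∈ J, {n : ℕ | {m | n.pair m ∈ (B i).1} ∈ V}, ∀ k,
        {m | Nat.pair n m ∈ (B (f k)).1} ∈ V :=
      fun n v k => mem_iInter₂.1 v _ (i.natEmbedding J k).2
    choose! X x1 x2 using fun n v => h4 _ (w n v)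
    refine ⟨range f, infinite_range_of_injective (Subtype.val_injective.comp
      (i.natEmbedding J).injective), ⟨{q | q.unpair.1 ∈ ⋂ i ∈ J, {n | {m | n.pair m ∈ (B i).1} ∈ V} ∧
        q.unpair.2 ∈ X q.unpair.1 ∧ ∀ k ≤ q.unpair.1, q ∈ (B (f k)).1}, mf.2 (mem_of_superset r
          fun n v => mem_of_superset (inter_mem (x1 n v) ((biInter_mem (finite_le_nat n)).2
            fun k _ => w n v k)) fun m u => by simpa using And.intro v u)⟩, ?_⟩
    rintro _ ⟨k, rfl⟩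
    refine (((finite_lt_nat k).inter_of_left _).biUnion fun n v => (x2 n v.2 k).image n.pair).subset
      fun q v => mem_biUnion ⟨not_le.1 fun u => v.2 (v.1.2.2 k u), v.1.1⟩
        ⟨q.unpair.2, ⟨v.1.2.1, by simpa using v.2⟩, q.pair_unpair⟩
  obtain ⟨n, v⟩ := U.nonempty_of_mem (mf.1 r)
  exact h6 m.unpair.2 (mem_of_superset v fun q u => by simp [← show n.pair q = m from u])

end Pool.Agent.H.MP_0d317a_lc
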